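import Pool.Agent.H28.RC.Targets1

/-! # F1: one-dimensional Fourier transform of `x exp (-π x ^ 2)` -/

set_option autoImplicit false

open MeasureTheory Set Filter Complex
open scoped FourierTransform

namespace Pool.Agent.H33.RC

open Pool.Agent.H28.RC

theorem pf_F1 : T_F1 := by
  intro k
  have hint : Integrable (fun x : ℝ => x * Real.exp (-Real.pi * x ^ 2)) :=
    integrable_mul_exp_neg_mul_sq Real.pi_pos
  refine ⟨hint, ?_⟩
  obtain ⟨f, hf⟩ : ∃ f : ℝ → ℂ, f = fun (x : ℝ) => ((Real.exp (-Real.pi * x ^ 2) : ℝ) : ℂ) :=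
    ⟨_, rfl⟩
  have hfi : Integrable f := by
    rw [hf]
    exact (integrable_exp_neg_mul_sq Real.pi_pos).ofReal
  have hxf : Integrable (fun x : ℝ => x • f x) := by
    have h1 := hint.ofReal (𝕜 := ℂ)
    refine h1.congr (Eventually.of_forall fun x => ?_)
    show ((x * Real.exp (-Real.pi * x ^ 2) : ℝ) : ℂ) = x • f x
    rw [hf, real_smul, ofReal_mul]
  have hF : 𝓕 f = f := by
    have h1 := fourier_gaussian_pi (b := 1) (by simp)
    have h2 : (fun (x : ℝ) => cexp (-Real.pi * 1 * x ^ 2)) = f := by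
      rw [hf]
      ext x
      push_cast
      rw [mul_one]
    rw [h2] at h1
    rw [h1, hf]
    ext x
    push_cast
    rw [one_cpow, div_one, one_mul, div_one]
  have hd := Real.hasDerivAt_fourier hfi hxf k
  rw [hF] at hd
  have hd2 : HasDerivAt f ((-(2 * Real.pi * k) * Real.exp (-Real.pi * k ^ 2) : ℝ) : ℂ) k := by
    rw [hf]
    have h3 : HasDerivAt (fun x : ℝ => Real.exp (-Real.pi * x ^ 2))
        (-(2 * Real.pi * k) * Real.exp (-Real.pi * k ^ 2)) k := by
      have h4 := ((hasDerivAt_pow 2 k).const_mul (-Real.pi)).exp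
      refine h4.congr_deriv ?_
      push_cast
      ring
    exact h3.ofReal_comp
  have h5 := hd.unique hd2
  rw [Real.fourier_real_eq_integral_exp_smul] at h5
  have h6 : ∫ v : ℝ, cexp (((-2 * Real.pi * v * k : ℝ) : ℂ) * I) •
      (fun x : ℝ => (-2 * Real.pi * I * x) • f x) v =
      (-2 * Real.pi * I) * ∫ x : ℝ, cexp (-(2 * Real.pi * (k * x) : ℝ) * I) *
        ((x * Real.exp (-Real.pi * x ^ 2) : ℝ) : ℂ) := by
    rw [← integral_const_mul]
    refine integral_congr_ae (Eventually.of_forall fun v => ?_)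
    simp only [smul_eq_mul, hf]
    rw [show (-2 * Real.pi * v * k : ℝ) = -(2 * Real.pi * (k * v)) by ring]
    push_cast
    ring
  rw [h6] at h5
  have hpi : (Real.pi : ℂ) ≠ 0 := ofReal_ne_zero.2 Real.pi_ne_zero
  have h7 : (-2 * Real.pi * I : ℂ) ≠ 0 := by
    simp [hpi]
  apply mul_left_cancel₀ h7
  rw [h5]
  push_cast
  have hI : (-2 * Real.pi * I) * (-I * (k * cexp (-Real.pi * k ^ 2))) =
      (2 * Real.pi * (k * cexp (-Real.pi * k ^ 2))) * (I * I) := by ring
  rw [hI, I_mul_I]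
  ring

end Pool.Agent.H33.RC
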