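import Pool.Agent.H28.RC.Targets2
import Pool.Agent.H48.DL.AL

/-! # EIG: eigenvalues -/

set_option autoImplicit false

open Complex

namespace Pool.Agent.H33.RC

open Pool.Agent.H28.RC Pool.Agent.H25.HK Pool.Agent.H25

theorem pf_EIG (hPW : T_PW) : T_EIG := by
  intro V _ _ _ A m hm hA
  obtain ⟨α, h1, h2⟩ := Pool.Agent.H48.DL.det_split A (n := Module.finrank ℂ V) rfl
  refine ⟨α, fun j => ?_, h2, fun k hk => hPW V A α h2 k hk⟩
  obtain ⟨v, hv⟩ := (h1 j).exists_hasEigenvector
  have hv0 : v ≠ 0 := hv.2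
  have h3 : ∀ i : ℕ, (A ^ i) v = (α j) ^ i • v := by
    intro i
    induction i with
    | zero => simp
    | succ i ih =>
      rw [pow_succ, Module.End.mul_apply, hv.apply_eq_smul, map_smul, ih, smul_smul, pow_succ,
        mul_comm]
  have h4 := h3 (m + 1)
  rw [hA, hv.apply_eq_smul] at h4
  have h5 : α j = α j ^ (m + 1) := by
    have h6 : (α j - α j ^ (m + 1)) • v = 0 := by rw [sub_smul, h4, sub_self]
    rcases smul_eq_zero.1 h6 with h | h
    · exact sub_eq_zero.1 h
    · exact absurd h hv0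
  rcases eq_or_ne (α j) 0 with h | h
  · exact Or.inl h
  · right
    rw [pow_succ] at h5
    have h7 : (α j ^ m - 1) * α j = 0 := by
      rw [sub_mul, ← h5, one_mul, sub_self]
    rcases mul_eq_zero.1 h7 with h8 | h8
    · exact sub_eq_zero.1 h8
    · exact absurd h8 h

end Pool.Agent.H33.RC
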